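import Mathlib

set_option autoImplicit false

namespace Pool.Agent.H.MP_3a0f08_gt

open Polynomial Matrix Cardinal

abbrev R : Type := PowerSeries (ZMod 2)

abbrev K : Type := Matrix.SpecialLinearGroup (Fin 2) R

lemma card_R : #R = 𝔠 := by
  have e : R ≃ (ℕ → ZMod 2) :=
    ⟨fun f n => PowerSeries.coeff n f, PowerSeries.mk, fun f => by ext; simp,
      fun f => by ext; simp⟩
  rw [mk_congr e]
  simp

lemma two_R : (2 : R) = 0 := by
  have : (2 : R) = PowerSeries.C (2 : ZMod 2) := by simp [map_ofNat]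
  rw [this, show (2 : ZMod 2) = 0 from rfl, map_zero]

def Tr (B : Subalgebra ℤ R) (l : R) : Prop :=
  ∀ P : R[X], P ∈ liftsRing (algebraMap B R) → P.eval l = 0 → P = 0

lemma ex_tr (B : Subalgebra ℤ R) (hB : #B < 𝔠) : ∃ l, Tr B l := by
  by_contra h
  push Not at h
  have h1 : ∀ l : R, IsAlgebraic B l := by
    intro l
    have := h l
    simp only [Tr, not_forall] at this
    obtain ⟨_, ⟨Q, rfl⟩, h2, h3⟩ := this
    refine ⟨Q, fun e => h3 (by rw [e, map_zero]), ?_⟩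
    rw [← h2, coe_mapRingHom, eval_map_algebraMap]
  have h2 := Algebraic.cardinalMk_le_max B R
  rw [mk_congr (Equiv.subtypeUnivEquiv h1), card_R] at h2
  exact (max_lt hB aleph0_lt_continuum).not_ge h2

lemma C_mem {B : Subalgebra ℤ R} {a : R} (h : a ∈ B) : C a ∈ liftsRing (algebraMap B R) :=
  C_mem_lifts _ (⟨a, h⟩ : B)

lemma X_mem (B : Subalgebra ℤ R) : (X : R[X]) ∈ liftsRing (algebraMap B R) := X_mem_lifts _

lemma mul_ap (a b : K) (i j : Fin 2) : (a * b) i j = a i 0 * b 0 j + a i 1 * b 1 j := by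
  have : (a * b) i j = ((a : Matrix (Fin 2) (Fin 2) R) * (b : Matrix (Fin 2) (Fin 2) R)) i j := rfl
  rw [this, mul_apply, Fin.sum_univ_two]

lemma kext {a b : K} (h0 : a 0 0 = b 0 0) (h1 : a 0 1 = b 0 1) (h2 : a 1 0 = b 1 0)
    (h3 : a 1 1 = b 1 1) : a = b := by
  refine Subtype.ext (Matrix.ext fun i j => ?_)
  fin_cases i <;> fin_cases j <;> assumption

def KA (A : Subalgebra ℤ R) : Subgroup K where
  carrier := {k | ∀ i j, k i j ∈ A}
  one_mem' i j := by fin_cases i <;> fin_cases j <;> simp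
  mul_mem' {a b} ha hb i j := by
    rw [mul_ap]
    exact A.add_mem (A.mul_mem (ha _ _) (hb _ _)) (A.mul_mem (ha _ _) (hb _ _))
  inv_mem' {a} ha i j := by
    rw [SpecialLinearGroup.SL2_inv_expl]
    fin_cases i <;> fin_cases j <;> simp [ha _ _]

lemma KA_mono {A B : Subalgebra ℤ R} (h : A ≤ B) : KA A ≤ KA B := fun _ hk i j => h (hk i j)

noncomputable def tt (m e : R) : K :=
  ⟨!![1 + e * m, -e; e * m ^ 2, 1 - e * m], by rw [det_fin_two_of]; ring⟩

lemma tt00 (m e : R) : tt m e 0 0 = 1 + e * m := rfl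
lemma tt01 (m e : R) : tt m e 0 1 = -e := rfl
lemma tt10 (m e : R) : tt m e 1 0 = e * m ^ 2 := rfl
lemma tt11 (m e : R) : tt m e 1 1 = 1 - e * m := rfl

lemma tt_sq (m e : R) : tt m e * tt m e = 1 := by
  refine kext ?_ ?_ ?_ ?_ <;> simp [mul_ap, tt00, tt01, tt10, tt11, -SpecialLinearGroup.coe_mul]
  · linear_combination (e * m) * two_R
  · linear_combination (-e) * two_R
  · linear_combination (e * m ^ 2) * two_R
  · linear_combination (-e * m) * two_R

lemma tt_mem {A : Subalgebra ℤ R} {m e : R} (hm : m ∈ A) (he : e ∈ A) : tt m e ∈ KA A := by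
  intro i j
  fin_cases i <;> fin_cases j <;> simp only [tt] <;> simp <;> aesop

lemma gen_ne {A : Subalgebra ℤ R} {μ : R} (h : Tr A μ) {c : K} (hc : c ∈ KA A) {i j : ℕ}
    (hij : i ≠ j ∨ c ≠ 1) :
    μ ^ (j + 1) * (c 0 0 + c 0 1 * μ ^ (i + 1)) - (c 1 0 + c 1 1 * μ ^ (i + 1)) ≠ 0 := by
  intro h0
  have hd : c 0 0 * c 1 1 - c 0 1 * c 1 0 = 1 := by rw [← det_fin_two, c.det_coe]
  have hP := h (C (c 0 1) * X ^ (i + j + 2) + C (c 0 0) * X ^ (j + 1) - C (c 1 1) * X ^ (i + 1)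
    - C (c 1 0)) (by
      refine sub_mem (sub_mem (add_mem ?_ ?_) ?_) (C_mem (hc _ _)) <;>
        exact mul_mem (C_mem (hc _ _)) (pow_mem (X_mem _) _)) (by
      simp only [eval_sub, eval_add, eval_mul, eval_C, eval_pow, eval_X]
      linear_combination h0)
  have h1 := congrArg (coeff · 0) hP
  have h2 := congrArg (coeff · (i + j + 2)) hP
  have h3 := congrArg (coeff · (j + 1)) hP
  simp only [coeff_sub, coeff_add, coeff_C_mul, coeff_X_pow, coeff_C, coeff_zero] at h1 h2 h3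
  rw [if_neg (by omega), if_neg (by omega), if_neg (by omega), if_pos trivial] at h1
  rw [if_pos trivial, if_neg (by omega), if_neg (by omega), if_neg (by omega)] at h2
  have h4 : c 1 0 = 0 := by linear_combination -h1
  have h5 : c 0 1 = 0 := by linear_combination h2
  by_cases e : i = j
  · subst e
    rw [if_neg (by omega), if_pos trivial, if_pos rfl, if_neg (by omega)] at h3
    have h6 : c 1 1 = c 0 0 := by linear_combination -h3
    have h7 : c 0 0 = 1 := by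
      refine sub_eq_zero.1 (pow_eq_zero_iff two_ne_zero |>.1 ?_)
      rw [h4, h6] at hd
      linear_combination hd + (1 - c 0 0) * two_R
    refine hij.resolve_left (fun h => h rfl) ?_
    refine kext ?_ ?_ ?_ ?_ <;> simp [h4, h5, h6, h7]
  · rw [if_neg (by omega), if_pos trivial, if_neg (by omega), if_neg (by omega)] at h3
    have h6 : c 0 0 = 0 := by linear_combination h3
    rw [h5, h6] at hd
    simp at hd

def Gd (B : Subalgebra ℤ R) (μ l : R) (n j : ℕ) (W : K) : Prop :=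
  ∃ P Q : R[X], ∃ s : R, s ≠ 0 ∧ P ∈ liftsRing (algebraMap B R) ∧ Q ∈ liftsRing (algebraMap B R) ∧
    P.eval l = W 0 0 + W 0 1 * μ ∧ Q.eval l = W 1 0 + W 1 1 * μ ∧ P.natDegree ≤ n ∧
    Q.natDegree ≤ n ∧ P.coeff n = s ∧ Q.coeff n = s * μ ^ (j + 1)

section

variable {A B : Subalgebra ℤ R} {μ l : R} (h1 : Tr A μ) (h2 : Tr B l) (hAB : A ≤ B) (hμ : μ ∈ B)

include hμ in
lemma gd_one : Gd B μ l 0 0 1 :=
  ⟨1, C μ, 1, one_ne_zero, one_mem _, C_mem hμ, by simp, by simp, by simp, by simp, by simp,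
    by simp⟩

include h1 hAB hμ in
lemma gd_step {n i j : ℕ} {W c : K} {e : R} (h : Gd B μ l n i W) (hc : c ∈ KA A)
    (hij : i ≠ j ∨ c ≠ 1) (he : e ∈ B) (he0 : e ≠ 0) :
    Gd B μ l (n + 1) j (tt (μ ^ (j + 1)) (e * l) * c * W) := by
  obtain ⟨P, Q, s, hs, hP, hQ, eP, eQ, dP, dQ, cP, cQ⟩ := h
  have hm := B.pow_mem hμ (j + 1)
  have g := gen_ne h1 hc hij
  unfold Gd
  generalize μ ^ (j + 1) = m at hm g ⊢
  have hc' : ∀ a b, C (c a b) ∈ liftsRing (algebraMap B R) := fun a b => C_mem (hAB (hc a b))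
  let P1 := C (c 0 0) * P + C (c 0 1) * Q
  let Q1 := C (c 1 0) * P + C (c 1 1) * Q
  have m1 : P1 ∈ liftsRing (algebraMap B R) := add_mem (mul_mem (hc' _ _) hP) (mul_mem (hc' _ _) hQ)
  have m2 : Q1 ∈ liftsRing (algebraMap B R) := add_mem (mul_mem (hc' _ _) hP) (mul_mem (hc' _ _) hQ)
  have d0 : ∀ a b : R, (C a * P + C b * Q).natDegree ≤ n := fun a b =>
    natDegree_add_le_of_degree_le ((natDegree_C_mul_le _ _).trans dP)
      ((natDegree_C_mul_le _ _).trans dQ)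
  have d1 : P1.natDegree ≤ n := d0 _ _
  have d2 : Q1.natDegree ≤ n := d0 _ _
  let w := C m * P1 - Q1
  have m3 : w ∈ liftsRing (algebraMap B R) := sub_mem (mul_mem (C_mem hm) m1) m2
  have d3 : w.natDegree ≤ n :=
    (natDegree_sub_le_of_le ((natDegree_C_mul_le _ _).trans d1) d2).trans (max_self n).le
  have d4 : ∀ a : R, (C a * (X * w)).natDegree ≤ n + 1 := fun a =>
    (natDegree_C_mul_le _ _).trans (natDegree_mul_le.trans (by simp; omega))
  have c3 : w.coeff n = s * (m * (c 0 0 + c 0 1 * μ ^ (i + 1)) - (c 1 0 + c 1 1 * μ ^ (i + 1))) := by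
    simp only [w, P1, Q1, coeff_sub, coeff_add, coeff_C_mul, cP, cQ]
    ring
  refine ⟨P1 + C e * (X * w), Q1 + C (e * m) * (X * w), e * w.coeff n,
    mul_ne_zero he0 (c3 ▸ mul_ne_zero hs g),
    add_mem m1 (mul_mem (C_mem he) (mul_mem (X_mem _) m3)),
    add_mem m2 (mul_mem (C_mem (B.mul_mem he hm)) (mul_mem (X_mem _) m3)), ?_, ?_,
    natDegree_add_le_of_degree_le (d1.trans n.le_succ) (d4 _),
    natDegree_add_le_of_degree_le (d2.trans n.le_succ) (d4 _), ?_, ?_⟩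
  · simp only [w, P1, Q1, eP, eQ, mul_ap, tt00, tt01, tt10, tt11, eval_add, eval_mul, eval_sub,
      eval_C, eval_X]
    ring
  · simp only [w, P1, Q1, eP, eQ, mul_ap, tt00, tt01, tt10, tt11, eval_add, eval_mul, eval_sub,
      eval_C, eval_X]
    ring
  · rw [coeff_add, coeff_C_mul, coeff_X_mul, coeff_eq_zero_of_natDegree_lt (by omega), zero_add]
  · rw [coeff_add, coeff_C_mul, coeff_X_mul, coeff_eq_zero_of_natDegree_lt (by omega), zero_add]
    ring

include h2 hAB hμ in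
lemma gd_not {n j : ℕ} {W : K} (h : Gd B μ l (n + 1) j W) : W ∉ KA A := by
  intro hW
  obtain ⟨P, Q, s, hs, hP, -, eP, -, -, -, cP, -⟩ := h
  have := h2 (P - C (W 0 0 + W 0 1 * μ)) (sub_mem hP (C_mem
    (B.add_mem (hAB (hW _ _)) (B.mul_mem (hAB (hW _ _)) hμ)))) (by simp [eP])
  have h3 := congrArg (coeff · (n + 1)) this
  simp only [coeff_sub, cP, coeff_C_succ, coeff_zero, sub_zero] at h3
  exact hs h3

end

theorem ex_gen (A : Subalgebra ℤ R) (hA : #A < 𝔠) : ∃ μ l : R, ∃ Ex : ℕ → K → Prop,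
    (∀ j c e, j ≠ 0 → c ∈ KA A → e ∈ A → e ≠ 0 → Ex j (tt (μ ^ (j + 1)) (e * l) * c)) ∧
    (∀ i j c e W, Ex i W → c ∈ KA A → (i ≠ j ∨ c ≠ 1) → e ∈ A → e ≠ 0 →
      Ex j (tt (μ ^ (j + 1)) (e * l) * c * W)) ∧
    ∀ j W, Ex j W → W ∉ KA A := by
  obtain ⟨μ, h1⟩ := ex_tr A hA
  let B := Algebra.adjoin ℤ (insert μ (A : Set R))
  have hAB : A ≤ B := fun a ha => Algebra.subset_adjoin (Or.inr ha)
  have hμ : μ ∈ B := Algebra.subset_adjoin (Or.inl rfl)
  obtain ⟨l, h2⟩ := ex_tr B ((Algebra.cardinalMk_adjoin_le ℤ _).trans_lt (by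
    refine max_lt (max_lt (by simpa using aleph0_lt_continuum) ?_) aleph0_lt_continuum
    exact mk_insert_le.trans_lt (add_lt_of_lt aleph0_le_continuum hA
      (one_lt_aleph0.trans aleph0_lt_continuum))))
  refine ⟨μ, l, fun j W => ∃ n, Gd B μ l (n + 1) j W, fun j c e hj hc he h0 => ⟨0, ?_⟩,
    fun i j c e W ⟨n, hn⟩ hc hij he h0 => ⟨n + 1, gd_step h1 hAB hμ hn hc hij (hAB he) h0⟩,
    fun j W ⟨n, hn⟩ => gd_not h2 hAB hμ hn⟩
  simpa using gd_step h1 hAB hμ (gd_one hμ) hc (Or.inl hj.symm) (hAB he) h0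

end Pool.Agent.H.MP_3a0f08_gt
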