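import Mathlib

set_option autoImplicit false

namespace Pool.Agent.H.MP_3a0f08_gt

open Set Filter Topology Function

section

variable {Z : Type} [TopologicalSpace Z] [CompactSpace Z] [T2Space Z]
  (hd : Dense {z : Z | IsOpen ({z} : Set Z)}) {p q : Z} (hp : IsOpen ({p} : Set Z))
  (hq : IsOpen ({q} : Set Z)) (hpq : p ≠ q)

def tl (y : ℕ → Z) : ℕ → Z := fun n => y (n + 1)

def cons (z : Z) (y : ℕ → Z) : ℕ → Z := fun n => Nat.casesOn n z y

omit [TopologicalSpace Z] [CompactSpace Z] [T2Space Z] in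
lemma tl_ext {y y' : ℕ → Z} (h0 : y 0 = y' 0) (h : tl y = tl y') : y = y' := by
  ext (_ | n)
  · exact h0
  · exact congrFun h n

omit [CompactSpace Z] [T2Space Z] in
lemma tl_cont : Continuous (tl : (ℕ → Z) → ℕ → Z) := continuous_pi fun _ => continuous_apply _

omit [CompactSpace Z] [T2Space Z] in
include hd hp in
lemma emb {U : Set (ℕ → Z)} (hU : IsOpen U) (hne : U.Nonempty) : ∃ j : (ℕ → Z) → ℕ → Z,
    Continuous j ∧ Injective j ∧ range j ⊆ U ∧ IsOpen (range j) := by
  obtain ⟨y, hy⟩ := hne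
  obtain ⟨I, u, h1, h2⟩ := isOpen_pi_iff.1 hU y hy
  have : ∀ a, ∃ z : Z, IsOpen ({z} : Set Z) ∧ (a ∈ I → z ∈ u a) := by
    intro a
    by_cases h : a ∈ I
    · obtain ⟨z, h3, h4⟩ := hd.inter_open_nonempty _ (h1 a h).1 ⟨_, (h1 a h).2⟩
      exact ⟨z, h4, fun _ => h3⟩
    · exact ⟨p, hp, fun h3 => absurd h3 h⟩
  choose z h3 h4 using this
  obtain ⟨n, hn⟩ := I.exists_nat_subset_range
  have e : range (fun (w : ℕ → Z) i => if i < n then z i else w (i - n)) =
      ⋂ i ∈ Finset.range n, (fun w => w i) ⁻¹' {z i} := by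
    ext w
    simp only [mem_iInter, Finset.mem_range, mem_preimage, mem_singleton_iff]
    refine ⟨?_, fun h => ⟨fun i => w (i + n), funext fun i => ?_⟩⟩
    · rintro ⟨v, rfl⟩ i hi
      exact if_pos hi
    · by_cases hi : i < n
      · simp only [if_pos hi, h i hi]
      · simp only [if_neg hi, Nat.sub_add_cancel (not_lt.1 hi)]
  refine ⟨fun w i => if i < n then z i else w (i - n), continuous_pi fun i => ?_,
    fun v w h => funext fun i => ?_, ?_, ?_⟩
  · split_ifs <;> fun_prop
  · simpa using congrFun h (i + n)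
  · rintro _ ⟨w, rfl⟩
    refine h2 fun i hi => ?_
    simp only [if_pos (Finset.mem_range.1 (hn hi))]
    exact h4 i hi
  · rw [e]
    exact isOpen_biInter_finset fun i _ => (h3 i).preimage (continuous_apply i)

def Mn (p q : Z) (A : Set (ℕ → Z)) : ℕ → Set (ℕ → Z)
  | 0 => {y | y 0 = q ∧ tl y ∈ A}
  | n + 1 => {y | y 0 = p ∧ tl y ∈ Mn p q A n}

omit [TopologicalSpace Z] [CompactSpace Z] [T2Space Z] in
lemma Mn_eq {A : Set (ℕ → Z)} (n : ℕ) : ∀ y ∈ Mn p q A n, ∀ i < n, y i = p := by
  induction n with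
  | zero => exact fun _ _ _ h => absurd h (Nat.not_lt_zero _)
  | succ n ih =>
    rintro y hy (_ | i) hi
    · exact hy.1
    · exact ih _ hy.2 i (by omega)

omit [CompactSpace Z] in
include hp hq in
lemma Mn_clopen {A : Set (ℕ → Z)} (hA : IsClopen A) (n : ℕ) : IsClopen (Mn p q A n) := by
  have c : Continuous fun y : ℕ → Z => y 0 := continuous_apply 0
  induction n with
  | zero => exact (IsClopen.preimage ⟨isClosed_singleton, hq⟩ c).inter (hA.preimage tl_cont)
  | succ n ih => exact (IsClopen.preimage ⟨isClosed_singleton, hp⟩ c).inter (ih.preimage tl_cont)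

lemma cont_ite {α β : Type} [TopologicalSpace α] [TopologicalSpace β] {s : Set α} (hs : IsClopen s)
    [∀ a, Decidable (a ∈ s)] {f g : α → β} (hf : Continuous f) (hg : Continuous g) :
    Continuous fun a => if a ∈ s then f a else g a :=
  hf.piecewise (s := s) (fun a ha => by simp [hs.frontier_eq] at ha) hg

include hd hp hq hpq in
lemma swindle {U : Set (ℕ → Z)} (hU : IsClopen U) (hne : U.Nonempty) : ∃ F : (ℕ → Z) → ℕ → Z,
    Continuous F ∧ Injective F ∧ range F = U := by
  classical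
  obtain ⟨j, h1, h2, h3, h4⟩ := emb hd hp hU.isOpen hne
  have hA : IsClopen (U \ range j) := hU.diff ⟨(isCompact_range h1).isClosed, h4⟩
  let M := Mn p q (U \ range j)
  let G : (ℕ → Z) → ℕ → Z := fun y => if y ∈ ⋃ n, M n then tl y else y
  have hG : Continuous G := by
    refine continuous_pi fun i => ?_
    have : (fun y => G y i) =
        fun y => if y ∈ ⋃ n ∈ Finset.range (i + 2), M n then y (i + 1) else y i := by
      ext y
      by_cases h : y ∈ ⋃ n ∈ Finset.range (i + 2), M n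
      · simp only [G, if_pos h, if_pos (iUnion₂_subset_iUnion _ _ h), tl]
      · rw [if_neg h]
        by_cases h5 : y ∈ ⋃ n, M n
        · simp only [G, if_pos h5, tl]
          obtain ⟨n, hn⟩ := mem_iUnion.1 h5
          have h6 : i + 2 ≤ n := not_lt.1 fun h6 => h (mem_biUnion (Finset.mem_range.2 h6) hn)
          rw [Mn_eq n y hn i (by omega), Mn_eq n y hn (i + 1) (by omega)]
        · simp only [G, if_neg h5]
    rw [this]
    exact cont_ite (isClopen_biUnion_finset fun n _ => Mn_clopen hp hq hA n)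
      (continuous_apply _) (continuous_apply _)
  have h5 : ∀ y, y ∉ M 0 → y ∈ ⋃ n, M n → y 0 = p ∧ tl y ∈ ⋃ n, M n := by
    intro y h5 h6
    obtain ⟨_ | n, hn⟩ := mem_iUnion.1 h6
    · exact absurd hn h5
    · exact ⟨hn.1, mem_iUnion.2 ⟨n, hn.2⟩⟩
  refine ⟨fun y => if y ∈ M 0 then tl y else j (G y),
    cont_ite (Mn_clopen hp hq hA 0) tl_cont (h1.comp hG), fun y y' h => ?_, Subset.antisymm ?_ ?_⟩
  · by_cases a : y ∈ M 0 <;> by_cases b : y' ∈ M 0 <;> simp only [a, b, if_true, if_false] at h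
    · exact tl_ext (a.1.trans b.1.symm) h
    · exact absurd ⟨_, h.symm⟩ a.2.2
    · exact absurd ⟨_, h⟩ b.2.2
    · have h6 := h2 h
      by_cases c : y ∈ ⋃ n, M n <;> by_cases d : y' ∈ ⋃ n, M n <;>
        simp only [G, c, d, if_true, if_false] at h6
      · exact tl_ext ((h5 y a c).1.trans (h5 y' b d).1.symm) h6
      · exact absurd (h6 ▸ (h5 y a c).2) d
      · exact absurd (h6 ▸ (h5 y' b d).2) c
      · exact h6
  · rintro _ ⟨y, rfl⟩
    by_cases a : y ∈ M 0 <;> simp only [a, if_true, if_false]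
    · exact a.2.1
    · exact h3 ⟨_, rfl⟩
  · intro u hu
    by_cases h : u ∈ range j
    · obtain ⟨w, rfl⟩ := h
      by_cases c : w ∈ ⋃ n, M n
      · obtain ⟨n, hn⟩ := mem_iUnion.1 c
        have a : cons p w ∉ M 0 := fun a => hpq a.1
        have b : cons p w ∈ ⋃ n, M n := mem_iUnion.2 ⟨n + 1, rfl, hn⟩
        exact ⟨cons p w, by simp only [G, a, b, if_true, if_false]; rfl⟩
      · have a : w ∉ M 0 := fun a => c (mem_iUnion.2 ⟨0, a⟩)
        exact ⟨w, by simp only [G, a, c, if_false]⟩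
    · have a : cons q u ∈ M 0 := ⟨rfl, hu, h⟩
      exact ⟨cons q u, by simp only [a, if_true]; rfl⟩

variable (V : Z → ℕ → Set Z) (v1 : ∀ z n, IsClopen (V z n)) (v2 : ∀ z n, z ∈ V z n)
  (v3 : ∀ z z', (∀ n, z' ∈ V z n) → z' = z) (v4 : ∀ z, Antitone (V z)) (v5 : ∀ z, ∃ z', z' ∉ V z 1)

def WW (y : ℕ → Z) (n : ℕ) : Set (ℕ → Z) := ⋂ i ∈ Finset.range n, (fun w => w i) ⁻¹' V (y i) n

omit [TopologicalSpace Z] [CompactSpace Z] [T2Space Z] in
lemma mem_WW {x y : ℕ → Z} {n : ℕ} : x ∈ WW V y n ↔ ∀ i < n, x i ∈ V (y i) n := by simp [WW]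

omit [CompactSpace Z] [T2Space Z] in
include v1 in
lemma WW_clopen (y : ℕ → Z) (n : ℕ) : IsClopen (WW V y n) :=
  isClopen_biInter_finset fun i _ => (v1 _ _).preimage (continuous_apply i)

omit [TopologicalSpace Z] [CompactSpace Z] [T2Space Z] in
include v2 in
lemma WW_self (y : ℕ → Z) (n : ℕ) : y ∈ WW V y n := (mem_WW V).2 fun _ _ => v2 _ _

omit [TopologicalSpace Z] [CompactSpace Z] [T2Space Z] in
include v3 v4 in
lemma WW_eq (y x : ℕ → Z) (h : ∀ n, x ∈ WW V y n) : x = y :=
  funext fun i => v3 _ _ fun n => v4 _ (Nat.le_add_right n (i + 1))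
    ((mem_WW V).1 (h _) i (by omega))

include hd hp hq hpq v1 v2 v3 v4 v5 in
lemma onept (y : ℕ → Z) : ∃ Φ : OnePoint (ℕ × (ℕ → Z)) ≃ₜ (ℕ → Z), Φ OnePoint.infty = y := by
  classical
  have a1 : Antitone (WW V y) := fun m n h x hx =>
    (mem_WW V).2 fun i hi => v4 _ h ((mem_WW V).1 hx i (hi.trans_le h))
  have a2 : ∀ n, (WW V y n \ WW V y (n + 1)).Nonempty := by
    intro n
    obtain ⟨z, hz⟩ := v5 (y n)
    refine ⟨update y n z, (mem_WW V).2 fun i hi => ?_, fun h => hz ?_⟩
    · rw [update_of_ne hi.ne]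
      exact v2 _ _
    · simpa using v4 _ (by omega : 1 ≤ n + 1) ((mem_WW V).1 h n n.lt_succ_self)
  choose F f1 f2 f3 using fun n => swindle hd hp hq hpq
    ((WW_clopen V v1 y n).diff (WW_clopen V v1 y (n + 1))) (a2 n)
  have f4 : ∀ n w, F n w ∈ WW V y n \ WW V y (n + 1) := fun n w => f3 n ▸ mem_range_self w
  let Φ : OnePoint (ℕ × (ℕ → Z)) → ℕ → Z := fun a => a.elim y fun b => F b.1 b.2
  have c : Continuous Φ := by
    refine (OnePoint.continuous_iff _).2 ⟨fun N hN => ?_, continuous_prod_of_discrete_left.2 f1⟩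
    obtain ⟨n, hn⟩ := exists_subset_nhds_of_compactSpace a1.directed_ge
      (fun n => (WW_clopen V v1 y n).isClosed) (U := N) (by
        intro x hx
        rw [WW_eq V v3 v4 y x (mem_iInter.1 hx)]
        exact hN)
    refine hasBasis_coclosedCompact.mem_iff.2 ⟨Iio n ×ˢ univ, ⟨(isClosed_discrete _).prod isClosed_univ,
      (finite_Iio n).isCompact.prod isCompact_univ⟩, fun b hb => hn (a1 ?_ (f4 b.1 b.2).1)⟩
    simpa using hb
  have b : Bijective Φ := by
    constructor
    · rintro (_ | ⟨m, v⟩) (_ | ⟨n, w⟩) h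
      · rfl
      · have h : F n w = y := h.symm
        exact absurd (WW_self V v2 y _) (h ▸ (f4 n w).2)
      · exact absurd (WW_self V v2 y _) ((show F m v = y from h) ▸ (f4 m v).2)
      · have h : F m v = F n w := h
        obtain rfl : m = n := by
          rcases lt_trichotomy m n with l | l | l
          · exact absurd (a1 l (f4 n w).1) (h ▸ (f4 m v).2)
          · exact l
          · exact absurd (a1 l (f4 m v).1) (h ▸ (f4 n w).2)
        rw [f2 m h]
    · intro x
      by_cases h : x = y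
      · exact ⟨OnePoint.infty, h.symm⟩
      have hex : ∃ n, x ∉ WW V y (n + 1) := by
        by_contra h1
        push Not at h1
        exact h (WW_eq V v3 v4 y x fun n => a1 n.le_succ (h1 n))
      have : x ∈ range (F (Nat.find hex)) := by
        rw [f3]
        refine ⟨?_, Nat.find_spec hex⟩
        rcases e : Nat.find hex with _ | n
        · exact (mem_WW V).2 fun i hi => absurd hi (Nat.not_lt_zero _)
        · exact not_not.1 (Nat.find_min hex (e ▸ n.lt_succ_self))
      obtain ⟨w, hw⟩ := this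
      exact ⟨OnePoint.some (_, w), hw⟩
  exact ⟨Continuous.homeoOfEquivCompactToT2 (f := Equiv.ofBijective Φ b) c, rfl⟩

include hd hp hq hpq v1 v2 v3 v4 v5 in
theorem homog (y y' : ℕ → Z) : ∃ φ : (ℕ → Z) ≃ₜ (ℕ → Z), φ y = y' := by
  obtain ⟨Φ, h⟩ := onept hd hp hq hpq V v1 v2 v3 v4 v5 y
  obtain ⟨Φ', h'⟩ := onept hd hp hq hpq V v1 v2 v3 v4 v5 y'
  exact ⟨Φ.symm.trans Φ', by simp [← h, h']⟩

end

def ZS : Set ((ℕ → Bool) × ((ℕ → Bool) → Bool)) := {z | ∀ d, z.2 d = true → d = z.1}

lemma ZS_closed : IsClosed ZS := by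
  have : ZS = ⋂ d, ({z | z.2 d = false} ∪ {z | d = z.1}) := by
    ext z
    simp only [ZS, mem_iInter, mem_union, mem_ofPred_eq]
    refine forall_congr' fun d => ?_
    cases z.2 d <;> simp
  rw [this]
  exact isClosed_iInter fun d => (isClosed_eq (by fun_prop) continuous_const).union
    (isClosed_eq continuous_const continuous_fst)

instance : CompactSpace ZS := isCompact_iff_compactSpace.1 ZS_closed.isCompact

open Classical in
noncomputable def iso (c : ℕ → Bool) : ZS := ⟨(c, fun d => decide (d = c)), fun d h => by simpa using h⟩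

lemma zs_ext {z z' : ZS} (h : z.1.1 = z'.1.1) (h' : z.1.2 z'.1.1 = z'.1.2 z'.1.1) : z = z' := by
  refine Subtype.ext (Prod.ext h (funext fun d => ?_))
  by_cases e : d = z'.1.1
  · rw [e, h']
  · rw [Bool.eq_false_iff.2 fun h1 => e (z'.2 d h1),
      Bool.eq_false_iff.2 fun h1 => e ((z.2 d h1).trans h)]

lemma co_clopen (d : ℕ → Bool) (b : Bool) : IsClopen {z : ZS | z.1.2 d = b} := by
  have : Continuous fun z : ZS => z.1.2 d := by fun_prop
  exact (isClopen_discrete {b}).preimage this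

lemma iso_open (c : ℕ → Bool) : IsOpen ({iso c} : Set ZS) := by
  convert (co_clopen c true).isOpen using 1
  ext z
  refine ⟨fun h => by rw [h]; simp [iso], fun h => zs_ext (z.2 c h).symm ?_⟩
  simpa [iso] using h

lemma iso_inj : Injective iso := fun _ _ h => congrArg (fun z : ZS => z.1.1) h

lemma iso_dense : Dense {z : ZS | IsOpen ({z} : Set ZS)} := by
  intro z
  by_cases h : z.1.2 z.1.1 = true
  · refine subset_closure ?_
    have : iso z.1.1 = z := zs_ext rfl (by simp [iso, h])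
    exact this ▸ iso_open _
  let c : ℕ → ℕ → Bool := fun n => update z.1.1 n (!z.1.1 n)
  have h1 : Tendsto c atTop (𝓝 z.1.1) := by
    refine tendsto_pi_nhds.2 fun i => tendsto_const_nhds.congr' ?_
    filter_upwards [eventually_gt_atTop i] with n hn
    simp only [c, update_of_ne hn.ne]
  refine mem_closure_of_tendsto (f := fun n => iso (c n)) (b := atTop) (tendsto_subtype_rng.2
    (h1.prodMk_nhds (tendsto_pi_nhds.2 fun d => tendsto_const_nhds.congr' ?_)))
    (Eventually.of_forall fun n => iso_open _)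
  by_cases e : d = z.1.1
  · refine Eventually.of_forall fun n => ?_
    have : d ≠ c n := fun e1 => by simpa [c, e] using congrFun e1 n
    simp [iso, this, e ▸ h]
  · filter_upwards [h1.eventually_ne (Ne.symm e)] with n hn
    simpa [iso, hn.symm] using fun h2 => e (z.2 d h2)

def VZ (z : ZS) (n : ℕ) : Set ZS :=
  (⋂ i ∈ Finset.range n, {w : ZS | w.1.1 i = z.1.1 i}) ∩ {w : ZS | w.1.2 z.1.1 = z.1.2 z.1.1}

lemma vz1 (z : ZS) (n : ℕ) : IsClopen (VZ z n) := by
  refine (isClopen_biInter_finset fun i _ => ?_).inter (co_clopen _ _)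
  have : Continuous fun w : ZS => w.1.1 i := by fun_prop
  exact (isClopen_discrete {z.1.1 i}).preimage this

lemma vz2 (z : ZS) (n : ℕ) : z ∈ VZ z n := by simp [VZ]

lemma vz3 (z w : ZS) (h : ∀ n, w ∈ VZ z n) : w = z :=
  zs_ext (funext fun i => mem_iInter₂.1 (h (i + 1)).1 i (Finset.self_mem_range_succ i)) (h 0).2

lemma vz4 (z : ZS) : Antitone (VZ z) := fun _ _ h _ hw =>
  ⟨mem_iInter₂.2 fun i hi => mem_iInter₂.1 hw.1 i (Finset.range_mono h hi), hw.2⟩

lemma vz5 (z : ZS) : ∃ w, w ∉ VZ z 1 :=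
  ⟨iso fun i => !z.1.1 i, fun h => by simpa [iso] using mem_iInter₂.1 h.1 0 (by simp)⟩

lemma homZ (y y' : ℕ → ZS) : ∃ φ : (ℕ → ZS) ≃ₜ (ℕ → ZS), φ y = y' :=
  homog iso_dense (iso_open fun _ => true) (iso_open fun _ => false)
    (fun h => by simpa using congrFun (iso_inj h) 0) VZ vz1 vz2 vz3 vz4 vz5 y y'

open Cardinal in
lemma cardZ : #(ℕ → ZS) ≤ 𝔠 := by
  have h : #ZS ≤ 𝔠 := by
    refine (mk_le_of_injective (f := fun z : ZS => (z.1.1, z.1.2 z.1.1)) fun z w h => ?_).trans ?_
    · obtain ⟨h1, h2⟩ := Prod.mk.inj h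
      exact zs_ext h1 (by rw [← h2, h1])
    · simp
  rw [← power_def, mk_nat]
  exact (power_le_power_right h).trans continuum_power_aleph0.le

def VB (z : Bool) (n : ℕ) : Set Bool := {w | n = 0 ∨ w = z}

lemma vb3 (z w : Bool) (h : ∀ n, w ∈ VB z n) : w = z := (h 1).resolve_left one_ne_zero

lemma vb4 (z : Bool) : Antitone (VB z) := fun _ _ h _ hw => hw.imp_left (by omega)

lemma denseB : Dense {z : Bool | IsOpen ({z} : Set Bool)} := fun z => subset_closure (isOpen_discrete {z})

lemma homB (y y' : ℕ → Bool) : ∃ φ : (ℕ → Bool) ≃ₜ (ℕ → Bool), φ y = y' :=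
  homog denseB (isOpen_discrete {true}) (isOpen_discrete {false}) (by simp) VB
    (fun _ _ => isClopen_discrete _) (fun _ _ => Or.inr rfl) vb3 vb4
    (fun z => ⟨!z, by simp [VB]⟩) y y'

noncomputable def thom : (ℕ → Bool) ≃ₜ (ℕ → Bool) where
  toFun x := if x 0 = false then cons false x else if x 1 = false then
    cons false (cons true (tl (tl x))) else tl x
  invFun x := if x 0 = true then cons true x else if x 1 = true then
    cons true (cons false (tl (tl x))) else tl x
  left_inv x := by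
    cases h0 : x 0 <;> cases h1 : x 1 <;> ext (_ | _ | n) <;> simp [cons, tl, h0, h1]
  right_inv x := by
    cases h0 : x 0 <;> cases h1 : x 1 <;> ext (_ | _ | n) <;> simp [cons, tl, h0, h1]
  continuous_toFun := by
    have c : ∀ (i : ℕ) (b : Bool), IsClopen {x : ℕ → Bool | x i = b} := fun i b =>
      (isClopen_discrete {b}).preimage (continuous_apply i)
    refine cont_ite (c 0 _) ?_ (cont_ite (c 1 _) ?_ tl_cont) <;>
    refine continuous_pi ?_ <;> rintro (_ | _ | n) <;> simp only [cons, tl] <;> fun_prop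
  continuous_invFun := by
    have c : ∀ (i : ℕ) (b : Bool), IsClopen {x : ℕ → Bool | x i = b} := fun i b =>
      (isClopen_discrete {b}).preimage (continuous_apply i)
    refine cont_ite (c 0 _) ?_ (cont_ite (c 1 _) ?_ tl_cont) <;>
    refine continuous_pi ?_ <;> rintro (_ | _ | n) <;> simp only [cons, tl] <;> fun_prop

lemma thom_eq {x : ℕ → Bool} (h : x 0 = false) : thom x = cons false x := if_pos h

end Pool.Agent.H.MP_3a0f08_gt
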