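import Mathlib
import Pool.Agent.H.MP_3a0f08_gt.Alg
import Pool.Agent.H.MP_155eb7_gt.Compact

set_option autoImplicit false

namespace Pool.Agent.H.MP_3a0f08_gt

open Set Filter Topology PowerSeries
open Cardinal hiding univ
open scoped PowerSeries.WithPiTopology

instance : CompactSpace R := inferInstanceAs (CompactSpace ((Unit →₀ ℕ) → ZMod 2))

instance : CompactSpace (Matrix (Fin 2) (Fin 2) R) :=
  inferInstanceAs (CompactSpace (Fin 2 → Fin 2 → R))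

instance : CompactSpace K := Matrix.SpecialLinearGroup.isClosedEmbedding_val.compactSpace

instance : T2Space K := Matrix.SpecialLinearGroup.isClosedEmbedding_val.isEmbedding.t2Space

def Cg (n : ℕ) (k k' : K) : Prop := ∀ i j, (X : R) ^ n ∣ k i j - k' i j

lemma Cg.mono {m n : ℕ} {k k' : K} (h : Cg n k k') (hm : m ≤ n) : Cg m k k' :=
  fun i j => (pow_dvd_pow _ hm).trans (h i j)

lemma Cg.coeff {n d : ℕ} {k k' : K} (h : Cg n k k') (hd : d < n) (i j : Fin 2) :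
    coeff d (k i j) = coeff d (k' i j) := by
  have := X_pow_dvd_iff.1 (h i j) d hd
  rwa [map_sub, sub_eq_zero] at this

lemma cg_clopen (n : ℕ) (k' : K) : IsClopen {k | Cg n k k'} := by
  have : {k | Cg n k k'} = ⋂ i, ⋂ j, ⋂ d ∈ Finset.range n, {k : K | coeff d (k i j - k' i j) = 0} := by
    ext k
    simp only [Cg, X_pow_dvd_iff, mem_ofPred_eq, mem_iInter, Finset.mem_range]
  rw [this]
  refine isClopen_iInter_of_finite fun i => isClopen_iInter_of_finite fun j =>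
    isClopen_biInter_finset fun d _ => ?_
  have hc : Continuous fun k : K => coeff d (k i j - k' i j) :=
    (WithPiTopology.continuous_coeff _ d).comp (by fun_prop)
  exact (isClopen_discrete {0}).preimage hc

lemma Cg.mul {n : ℕ} {s k k' : K} (hs : Cg n s 1) (h : Cg n k k') : Cg n (s * k) k' := by
  intro i j
  have e : (s * k) i j - k' i j = (s i 0 - (1 : K) i 0) * k 0 j + (s i 1 - (1 : K) i 1) * k 1 j +
      (k i j - k' i j) := by
    have := mul_ap 1 k i j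
    rw [one_mul] at this
    rw [mul_ap]
    linear_combination -this
  rw [e]
  exact (((hs _ _).mul_right _).add ((hs _ _).mul_right _)).add (h i j)

lemma tt_cg (n : ℕ) (m l : R) : Cg n (tt m (X ^ n * l)) 1 := by
  intro i j
  fin_cases i <;> fin_cases j <;> simp [tt00, tt01, tt10, tt11, mul_assoc]

section

variable {Y : Type} [TopologicalSpace Y] (U : Y → ℕ → Set Y) (hU : ∀ y n, IsClopen (U y n))
  (hU1 : ∀ y n, y ∈ U y n) (hU2 : ∀ y y', (∀ n, y' ∈ U y n) → y' = y)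

include hU hU1 hU2 in
lemma ex_theta (x0 : Y × K) (m : ℕ → R) (l : R) : ∃ θ : Y × K ≃ₜ Y × K, θ x0 = x0 ∧
    (∀ x, θ (θ x) = x) ∧ (∀ x, (θ x).1 = x.1) ∧
    ∀ x ≠ x0, ∃ n, (θ x).2 = tt (m n) (X ^ n * l) * x.2 := by
  classical
  let W : ℕ → Set (Y × K) := fun n => U x0.1 n ×ˢ {k | Cg n k x0.2}
  have hW : ∀ n, IsClopen (W n) := fun n => (hU _ _).prod (cg_clopen _ _)
  have hW0 : ∀ n, x0 ∈ W n := fun n => ⟨hU1 _ _, fun i j => by simp⟩
  have hex : ∀ x ≠ x0, ∃ n, x ∉ W n := by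
    intro x hx
    by_contra h
    push Not at h
    refine hx (Prod.ext (hU2 _ _ fun n => (h n).1) (Subtype.ext (Matrix.ext fun i j => ?_)))
    ext d
    exact Cg.coeff (h (d + 1)).2 d.lt_succ_self i j
  let D : ℕ → Set (Y × K) := fun n => {x | x ∉ W n ∧ ∀ k < n, x ∈ W k}
  let s : Y × K → K := fun x => if h : x = x0 then 1 else
    tt (m (Nat.find (hex x h))) (X ^ Nat.find (hex x h) * l)
  have hD : ∀ x ≠ x0, ∃ n, x ∈ D n := fun x h =>
    ⟨_, Nat.find_spec (hex x h), fun k hk => not_not.1 (Nat.find_min (hex x h) hk)⟩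
  have hs : ∀ n, ∀ x ∈ D n, s x = tt (m n) (X ^ n * l) := by
    intro n x hx
    have h : x ≠ x0 := fun e => hx.1 (e ▸ hW0 n)
    have : Nat.find (hex x h) = n :=
      (Nat.find_eq_iff _).2 ⟨hx.1, fun k hk => not_not.2 (hx.2 k hk)⟩
    simp only [s, dif_neg h, this]
  have hs0 : s x0 = 1 := dif_pos rfl
  have hc : Continuous s := by
    refine continuous_iff_continuousAt.2 fun x => ?_
    by_cases h : x = x0
    · rw [h, ContinuousAt, hs0]
      refine tendsto_subtype_rng.2 (tendsto_pi_nhds.2 fun i => tendsto_pi_nhds.2 fun j =>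
        (WithPiTopology.tendsto_iff_coeff_tendsto _ _ _ _).2 fun d => tendsto_const_nhds.congr' ?_)
      filter_upwards [(eventually_all_finset (Finset.range (d + 1))).2 fun k _ =>
        (hW k).isOpen.mem_nhds (hW0 k)] with y hy
      refine (Cg.coeff (k := s y) ?_ d.lt_succ_self i j).symm
      by_cases h1 : y = x0
      · rw [h1, hs0]
        exact fun i j => by simp
      · obtain ⟨n, hn⟩ := hD y h1
        rw [hs n y hn]
        exact (tt_cg _ _ _).mono (not_lt.1 fun h2 => hn.1 (hy n (Finset.mem_range.2 h2)))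
    · obtain ⟨n, hn⟩ := hD x h
      refine (continuousAt_const (y := s x)).congr ?_
      filter_upwards [(hW n).compl.isOpen.mem_nhds hn.1,
        (eventually_all_finset (Finset.range n)).2 fun k hk =>
        (hW k).isOpen.mem_nhds (hn.2 k (Finset.mem_range.1 hk))] with y h1 h2
      rw [hs n x hn, hs n y ⟨h1, fun k hk => h2 k (Finset.mem_range.2 hk)⟩]
  let f : Y × K → Y × K := fun x => (x.1, s x * x.2)
  have hf : Continuous f := continuous_fst.prodMk (hc.mul continuous_snd)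
  have hi : Function.Involutive f := by
    intro x
    by_cases h : x = x0
    · simp only [f, h, hs0, one_mul]
    obtain ⟨n, hn⟩ := hD x h
    have h1 : f x ∈ D n := by
      refine ⟨fun h1 => hn.1 ⟨h1.1, ?_⟩, fun k hk => ⟨(hn.2 k hk).1, ?_⟩⟩
      · have h2 := (tt_cg n (m n) l).mul h1.2
        simp only [f, hs n x hn] at h2
        rwa [← mul_assoc, tt_sq, one_mul] at h2
      · simp only [f, hs n x hn]
        exact ((tt_cg n (m n) l).mono hk.le).mul (hn.2 k hk).2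
    refine Prod.ext rfl ?_
    change s (f x) * (s x * x.2) = x.2
    rw [hs n _ h1, hs n x hn, ← mul_assoc, tt_sq, one_mul]
  refine ⟨⟨hi.toPerm, hf, hf⟩, ?_, hi, fun _ => rfl, fun x hx => ?_⟩
  · change f x0 = x0
    simp only [f, hs0, one_mul]
  · obtain ⟨n, hn⟩ := hD x hx
    exact ⟨n, by rw [← hs n x hn]; rfl⟩

noncomputable def co (g : Y × K ≃ₜ Y × K) (x : Y × K) : K := (g x).2 * x.2⁻¹

lemma co_mul (g h : Y × K ≃ₜ Y × K) (x : Y × K) : co (g * h) x = co g (h x) * co h x := by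
  simp [co, mul_assoc]

structure Inv (G : Subgroup (Y × K ≃ₜ Y × K)) (A : Subalgebra ℤ R) : Prop where
  mem : ∀ g ∈ G, ∀ x, co g x ∈ KA A
  out : ∀ g ∈ G, ∀ x : Y × K, x.2 ∉ KA A → co g x = 1 → g = 1
  free : ∀ g ∈ G, ∀ x, g x = x → g = 1

lemma Inv.mono {G : Subgroup (Y × K ≃ₜ Y × K)} {A B : Subalgebra ℤ R} (h : Inv G A) (hAB : A ≤ B) :
    Inv G B :=
  ⟨fun g hg x => KA_mono hAB (h.mem g hg x),
    fun g hg x hx => h.out g hg x fun h1 => hx (KA_mono hAB h1), h.free⟩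

lemma co_iff {g : Y × K ≃ₜ Y × K} {x : Y × K} {A : Subalgebra ℤ R} (h : co g x ∈ KA A) :
    (g x).2 ∈ KA A ↔ x.2 ∈ KA A := by
  have : (g x).2 = co g x * x.2 := by simp [co]
  rw [this, Subgroup.mul_mem_cancel_left _ h]

inductive Red (G : Subgroup (Y × K ≃ₜ Y × K)) (H : Bool → (Y × K ≃ₜ Y × K)) :
    (Y × K ≃ₜ Y × K) → Bool → Prop
  | base (g : Y × K ≃ₜ Y × K) (e : Bool) : g ∈ G → Red G H (H e * g) e
  | step (w g : Y × K ≃ₜ Y × K) (e e' : Bool) : Red G H w e → g ∈ G → (g ≠ 1 ∨ e' = e) →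
      Red G H (H e' * g * w) e'

lemma red_form {G : Subgroup (Y × K ≃ₜ Y × K)} {H : Bool → (Y × K ≃ₜ Y × K)}
    (hH : ∀ e, H (!e) = (H e)⁻¹) {u : Y × K ≃ₜ Y × K}
    (hu : u ∈ Subgroup.closure ((G : Set _) ∪ range H)) :
    u ∈ G ∨ ∃ g ∈ G, ∃ w e, Red G H w e ∧ u = g * w := by
  have key : ∀ v ∈ (G : Set _) ∪ range H, ∀ u, (u ∈ G ∨ ∃ g ∈ G, ∃ w e, Red G H w e ∧ u = g * w) →
      (v * u ∈ G ∨ ∃ g ∈ G, ∃ w e, Red G H w e ∧ v * u = g * w) := by
    rintro v (hv | ⟨e', rfl⟩) u (h | ⟨g, hg, w, e, hw, rfl⟩)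
    · exact Or.inl (G.mul_mem hv h)
    · exact Or.inr ⟨v * g, G.mul_mem hv hg, w, e, hw, (mul_assoc _ _ _).symm⟩
    · exact Or.inr ⟨1, G.one_mem, _, e', .base u e' h, (one_mul _).symm⟩
    · by_cases h : g ≠ 1 ∨ e' = e
      · exact Or.inr ⟨1, G.one_mem, _, e', .step w g e e' hw hg h, by rw [one_mul, mul_assoc]⟩
      · push Not at h
        obtain ⟨rfl, h⟩ := h
        obtain rfl : e' = !e := Bool.eq_not_of_ne h
        rw [hH, one_mul]
        cases hw with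
        | base g _ hg => exact Or.inl (by simpa using hg)
        | step w g e1 _ hw hg _ => exact Or.inr ⟨g, hg, w, e1, hw, by simp [mul_assoc]⟩
  induction hu using Subgroup.closure_induction_left with
  | one => exact Or.inl G.one_mem
  | mul_left v hv u _ ih => exact key v hv u ih
  | inv_mul_cancel v hv u _ ih =>
    refine key _ ?_ u ih
    rcases hv with hv | ⟨e, rfl⟩
    · exact Or.inl (G.inv_mem hv)
    · exact Or.inr ⟨_, hH e⟩

lemma step_core {G : Subgroup (Y × K ≃ₜ Y × K)} {A B : Subalgebra ℤ R} (hI : Inv G A) (hAB : A ≤ B)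
    (H : Bool → (Y × K ≃ₜ Y × K)) (hH : ∀ e, H (!e) = (H e)⁻¹) (pt : Bool → Y × K)
    (h1 : ∀ e, H e (pt e) = pt (!e)) (h2 : ∀ e, (pt e).2 ∈ KA A)
    (h3 : ∀ e, ∀ g ∈ G, g (pt (!e)) ≠ pt e) (h4 : ∀ e x, co (H e) x ∈ KA B)
    (Ex : Bool → K → Prop) (h5 : ∀ e W, Ex e W → W ∉ KA A)
    (h6 : ∀ e x c, x ≠ pt e → c ∈ KA A → Ex e (co (H e) x * c))
    (h7 : ∀ e e' x c W, x ≠ pt e' → c ∈ KA A → Ex e W → (c ≠ 1 ∨ e' = e) →
      Ex e' (co (H e') x * c * W)) :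
    Inv (Subgroup.closure ((G : Set _) ∪ range H)) B := by
  set G' := Subgroup.closure ((G : Set _) ∪ range H) with hG'
  have m1 : ∀ g ∈ G, g ∈ G' := fun g hg => Subgroup.subset_closure (Or.inl hg)
  have m2 : ∀ e, H e ∈ G' := fun e => Subgroup.subset_closure (Or.inr ⟨e, rfl⟩)
  have mem : ∀ g ∈ G', ∀ x, co g x ∈ KA B := by
    intro g hg
    induction hg using Subgroup.closure_induction with
    | mem v hv =>
      rcases hv with hv | ⟨e, rfl⟩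
      · exact fun x => KA_mono hAB (hI.mem v hv x)
      · exact h4 e
    | one => exact fun x => by simp [co]
    | mul u v _ _ hu hv => exact fun x => co_mul u v x ▸ mul_mem (hu _) (hv _)
    | inv u _ hu =>
      intro x
      have := inv_mem (hu (u⁻¹ x))
      simpa [co] using this
  have path : ∀ x : Y × K, (x.2 ∈ KA A ∨ ∀ u ∈ G', (u x).2 ∉ KA A) → ∀ w e, Red G H w e →
      w ∈ G' ∧ (Ex e (co w x) ∨ (w x = pt (!e) ∧ ∃ g ∈ G, g x = pt e)) := by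
    intro x hx w e hw
    induction hw with
    | base g e hg =>
      refine ⟨mul_mem (m2 e) (m1 g hg), ?_⟩
      by_cases h : g x = pt e
      · exact Or.inr ⟨by rw [← h1, ← h]; rfl, g, hg, h⟩
      · exact Or.inl (by rw [co_mul]; exact h6 e _ _ h (hI.mem g hg x))
    | step w g e e' _ hg hr ih =>
      obtain ⟨hw, ih⟩ := ih
      refine ⟨mul_mem (mul_mem (m2 e') (m1 g hg)) hw, Or.inl ?_⟩
      rw [co_mul, co_mul]
      rcases ih with ih | ⟨i1, g0, i2, i3⟩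
      · have o1 : (w x).2 ∉ KA A := by
          rcases hx with hx | hx
          · exact fun h => h5 _ _ ih (mul_mem h (inv_mem hx))
          · exact hx w hw
        refine h7 e e' _ _ _ (fun h => o1 ((co_iff (hI.mem g hg _)).1 (h ▸ h2 e'))) (hI.mem g hg _)
          ih (hr.imp_left fun h h8 => h (hI.out g hg _ o1 h8))
      · rw [mul_assoc]
        refine h6 e' _ _ (fun h => ?_) (mul_mem (hI.mem g hg _) (mul_mem (i1 ▸ h2 _)
          (inv_mem ((co_iff (hI.mem g0 i2 _)).1 (i3 ▸ h2 e)))))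
        rw [i1] at h
        by_cases h8 : e' = e
        · exact h3 e g hg (h8 ▸ h)
        · obtain rfl : e' = !e := Bool.eq_not_of_ne h8
          exact hr.resolve_right h8 (hI.free g hg _ h)
  have fin : ∀ x : Y × K, (x.2 ∈ KA A ∨ ∀ u ∈ G', (u x).2 ∉ KA A) → ∀ u ∈ G', u ∉ G →
      co u x = 1 → x.2 ∈ KA A ∧ u x ≠ x := by
    intro x hx u hu hG hc
    obtain ⟨g, hg, w, e, hw, rfl⟩ := (red_form hH hu).resolve_left hG
    rcases (path x hx w e hw).2 with h | ⟨i1, g0, i2, i3⟩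
    · rw [co_mul] at hc
      exact absurd ((Subgroup.mul_mem_cancel_left _ (hI.mem g hg _)).1 (hc ▸ one_mem _)) (h5 _ _ h)
    · refine ⟨(co_iff (hI.mem g0 i2 _)).1 (i3 ▸ h2 e), fun h => h3 e (g0 * g) (mul_mem i2 hg) ?_⟩
      rw [← i1, ← i3]
      exact congrArg g0 h
  refine ⟨mem, fun u hu x hx hc => ?_, fun u hu x hx => ?_⟩
  · by_cases hG : u ∈ G
    · exact hI.out u hG x (fun h => hx (KA_mono hAB h)) hc
    · exact absurd (KA_mono hAB (fin x (Or.inr fun v hv h =>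
        hx ((co_iff (mem v hv x)).1 (KA_mono hAB h))) u hu hG hc).1) hx
  · have key : ∀ x : Y × K, (x.2 ∈ KA A ∨ ∀ u ∈ G', (u x).2 ∉ KA A) → ∀ u ∈ G', u x = x →
        u = 1 := by
      intro x hx u hu h
      by_cases hG : u ∈ G
      · exact hI.free u hG x h
      · exact absurd h (fin x hx u hu hG (by simp [co, h])).2
    by_cases h : ∀ v ∈ G', (v x).2 ∉ KA A
    · exact key x (Or.inr h) u hu hx
    · push Not at h
      obtain ⟨v, hv, h⟩ := h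
      have := key (v x) (Or.inl h) (v * u * v⁻¹) (mul_mem (mul_mem hv hu) (inv_mem hv))
        (by simp [hx])
      simpa using this

lemma card_adj (A : Subalgebra ℤ R) {s : Set R} (hs : s.Finite) :
    #(Algebra.adjoin ℤ ((A : Set R) ∪ s)) ≤ max #A ℵ₀ := by
  refine (Algebra.cardinalMk_adjoin_le ℤ _).trans (max_le (max_le (by simp) ?_) (le_max_right _ _))
  exact (mk_union_le _ _).trans (add_le_of_le (le_max_right _ _) (le_max_left _ _)
    (hs.lt_aleph0.le.trans (le_max_right _ _)))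

include hU hU1 hU2 in
theorem step {G : Subgroup (Y × K ≃ₜ Y × K)} {A : Subalgebra ℤ R} (hI : Inv G A) (hA : #A < 𝔠)
    (x0 x1 : Y × K) (φ : Y ≃ₜ Y) (hφ : φ x0.1 = x1.1) (hne : ∀ g ∈ G, g x0 ≠ x1) :
    ∃ G' A', G ≤ G' ∧ Inv G' A' ∧ #A' ≤ max #A ℵ₀ ∧
      ∃ h ∈ G', h x0 = x1 ∧ ∀ x, (h x).1 = φ x.1 := by
  let pt : Bool → Y × K := fun e => cond e x0 x1
  let A1 := Algebra.adjoin ℤ ((A : Set R) ∪
    insert X (range fun p : Bool × Fin 2 × Fin 2 => (pt p.1).2 p.2.1 p.2.2))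
  have c1 : #A1 ≤ max #A ℵ₀ := card_adj A ((finite_range _).insert _)
  have a1 : A ≤ A1 := fun a ha => Algebra.subset_adjoin (Or.inl ha)
  have a2 : X ∈ A1 := Algebra.subset_adjoin (Or.inr (Or.inl rfl))
  have a3 : ∀ e, (pt e).2 ∈ KA A1 := fun e i j =>
    Algebra.subset_adjoin (Or.inr (Or.inr ⟨(e, i, j), rfl⟩))
  obtain ⟨μ, l, Ex, E0, E1, E2⟩ := ex_gen A1 (c1.trans_lt (max_lt hA aleph0_lt_continuum))
  let B := Algebra.adjoin ℤ ((A1 : Set R) ∪ {μ, l})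
  have b1 : A1 ≤ B := fun a ha => Algebra.subset_adjoin (Or.inl ha)
  have b2 : μ ∈ B := Algebra.subset_adjoin (Or.inr (Or.inl rfl))
  have b3 : l ∈ B := Algebra.subset_adjoin (Or.inr (Or.inr rfl))
  let ix : Bool → ℕ → ℕ := fun e n => 2 * n + cond e 1 2
  have i1 : ∀ e n, ix e n ≠ 0 := fun e n => by cases e <;> simp [ix]
  have i2 : ∀ e n m, ix e n ≠ ix (!e) m := fun e n m => by cases e <;> simp [ix] <;> omega
  choose θ t1 t2 t3 t4 using fun e => ex_theta U hU hU1 hU2 (pt e) (fun n => μ ^ (ix e n + 1)) l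
  let L0 : Y × K ≃ₜ Y × K := φ.prodCongr (Homeomorph.mulLeft (x1.2 * x0.2⁻¹))
  let L : Bool → (Y × K ≃ₜ Y × K) := fun e => cond e L0 L0⁻¹
  have l0 : L0 x0 = x1 := Prod.ext hφ (by simp [L0, Prod.map])
  have l1 : ∀ e, L e (pt e) = pt (!e) := by
    rintro (_ | _)
    · exact L0.symm_apply_eq.2 l0.symm
    · exact l0
  have l2 : ∀ e x, (L e x).2 = (pt (!e)).2 * (pt e).2⁻¹ * x.2 := by
    rintro (_ | _) x
    · change (x1.2 * x0.2⁻¹)⁻¹ * x.2 = x0.2 * x1.2⁻¹ * x.2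
      simp
    · rfl
  have t5 : ∀ e, (θ e)⁻¹ = θ e := fun e => inv_eq_of_mul_eq_one_right (Homeomorph.ext (t2 e))
  let H : Bool → (Y × K ≃ₜ Y × K) := fun e => θ (!e) * L e * θ e
  have hH : ∀ e, H (!e) = (H e)⁻¹ := by
    rintro (_ | _) <;> simp [H, L, t5, mul_assoc]
  have h1 : ∀ e, H e (pt e) = pt (!e) := fun e => by
    change θ (!e) (L e (θ e (pt e))) = _
    rw [t1, l1, t1]
  have h2 : ∀ e x, x ≠ pt e → ∃ n m, co (H e) x = tt (μ ^ (ix (!e) m + 1)) (X ^ m * l) *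
      ((pt (!e)).2 * (pt e).2⁻¹) * tt (μ ^ (ix e n + 1)) (X ^ n * l) := by
    intro e x hx
    obtain ⟨n, hn⟩ := t4 e x hx
    obtain ⟨m, hm⟩ := t4 (!e) (L e (θ e x)) fun h =>
      hx ((θ e).injective (((L e).injective (h.trans (l1 e).symm)).trans (t1 e).symm))
    refine ⟨n, m, ?_⟩
    change (θ (!e) (L e (θ e x))).2 * x.2⁻¹ = _
    rw [hm, l2, hn]
    simp [mul_assoc]
  have a4 : ∀ e, (pt (!e)).2 * (pt e).2⁻¹ ∈ KA A1 := fun e => mul_mem (a3 _) (inv_mem (a3 _))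
  have a5 : ∀ n : ℕ, (X : R) ^ n ≠ 0 := fun n => pow_ne_zero _ X_ne_zero
  have key := step_core (hI.mono a1) b1 H hH pt h1 a3 ?_ ?_ (fun e W => ∃ n, Ex (ix (!e) n) W)
    (fun e W ⟨n, h⟩ => E2 _ _ h) ?_ ?_
  · refine ⟨_, B, fun g hg => Subgroup.subset_closure (Or.inl hg), key,
      (card_adj A1 (toFinite _)).trans (max_le c1 (le_max_right _ _)), H true,
      Subgroup.subset_closure (Or.inr ⟨true, rfl⟩), h1 true, fun x => ?_⟩
    change (θ false (L0 (θ true x))).1 = _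
    rw [t3]
    exact congrArg φ (t3 _ _)
  · rintro (_ | _) g hg h
    · exact hne g hg h
    · exact hne g⁻¹ (inv_mem hg) (g.symm_apply_eq.2 h.symm)
  · intro e x
    by_cases hx : x = pt e
    · rw [hx, co, h1]
      exact KA_mono b1 (a4 e)
    · obtain ⟨n, m, h⟩ := h2 e x hx
      have h3 : ∀ j n : ℕ, tt (μ ^ j) (X ^ n * l) ∈ KA B := fun j n =>
        tt_mem (pow_mem b2 _) (mul_mem (pow_mem (b1 a2) _) b3)
      rw [h]
      exact mul_mem (mul_mem (h3 _ _) (KA_mono b1 (a4 e))) (h3 _ _)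
  · intro e x c hx hc
    obtain ⟨n, m, h⟩ := h2 e x hx
    refine ⟨m, ?_⟩
    rw [h, mul_assoc]
    exact E1 _ _ _ _ _ (E0 _ c _ (i1 e n) hc (pow_mem a2 _) (a5 _)) (a4 e) (Or.inl (i2 _ _ _))
      (pow_mem a2 _) (a5 _)
  · rintro e e' x c W hx hc ⟨k, hk⟩ hr
    obtain ⟨n, m, h⟩ := h2 e' x hx
    refine ⟨m, ?_⟩
    rw [h, mul_assoc _ _ c, mul_assoc _ _ W]
    have h3 : ix (!e) k ≠ ix e' n ∨ c ≠ 1 := hr.symm.imp_left fun e1 : e' = e =>
      e1 ▸ (i2 _ _ _).symm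
    exact E1 _ _ _ _ _ (E1 _ _ c _ W hk hc h3
      (pow_mem a2 _) (a5 _)) (a4 e') (Or.inl (i2 _ _ _)) (pow_mem a2 _) (a5 _)

lemma card_K : #K ≤ 𝔠 := by
  refine (mk_subtype_le _).trans ?_
  change #(Fin 2 → Fin 2 → R) ≤ _
  have e : (𝔠 : Cardinal.{0}) ^ (2 : Cardinal.{0}) = 𝔠 := by 
    rw [← one_add_one_eq_two, power_add, power_one, continuum_mul_self]
  simp [card_R, e]

include hU hU1 hU2 in
theorem simply (hom : ∀ y y' : Y, ∃ φ : Y ≃ₜ Y, φ y = y') (hY : #Y ≤ 𝔠) (y0 : Y) (φ0 : Y ≃ₜ Y) :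
    ∃ G : Subgroup (Y × K ≃ₜ Y × K), (∀ x, ∃ g ∈ G, g (y0, 1) = x) ∧
      (∀ g ∈ G, ∀ x, g x = x → g = 1) ∧ ∃ h ∈ G, ∀ x, (h x).1 = φ0 x.1 := by
  have hb : Inv (⊥ : Subgroup (Y × K ≃ₜ Y × K)) ⊥ := ⟨fun g hg x => by
    rw [Subgroup.mem_bot.1 hg]; simp [co], fun g hg _ _ _ => hg, fun g hg _ _ => hg⟩
  have hc : #(⊥ : Subalgebra ℤ R) ≤ ℵ₀ := by
    rw [← Algebra.adjoin_empty]
    exact (Algebra.cardinalMk_adjoin_le ℤ _).trans (by simp)
  obtain ⟨G0, A0, -, I0, c0, h, hh, -, h0⟩ := step U hU hU1 hU2 hb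
    (hc.trans_lt aleph0_lt_continuum) (y0, 1) (φ0 y0, tt 0 1) φ0 rfl (fun g hg e => by
      rw [Subgroup.mem_bot.1 hg] at e
      have := congrArg (fun x : Y × K => x.2 0 1) e
      simp [tt01] at this)
  have c1 : #A0 ≤ ℵ₀ := c0.trans (max_le hc le_rfl)
  let W := (𝔠 : Cardinal.{0}).ord.ToType
  have hX : #(Y × K) ≤ #W := by
    rw [mk_ord_toType, mk_prod, lift_id, lift_id]
    exact (mul_le_mul' hY card_K).trans continuum_mul_self.le
  obtain ⟨en, hen⟩ : ∃ en : W → Y × K, Function.Surjective en :=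
    let ⟨j⟩ := (le_def _ _).1 hX
    haveI : Nonempty (Y × K) := ⟨(y0, 1)⟩
    ⟨_, Function.invFun_surjective j.injective⟩
  have un : ∀ (f : W → Subgroup (Y × K ≃ₜ Y × K)) (S : Set W),
      (∀ ξ ∈ S, G0 ≤ f ξ ∧ ∀ η < ξ, f η ≤ f ξ) →
      ∃ G : Subgroup (Y × K ≃ₜ Y × K), ∀ g, g ∈ G ↔ g ∈ G0 ∨ ∃ ξ ∈ S, g ∈ f ξ := by
    intro f S hf
    refine ⟨⟨⟨⟨{g | g ∈ G0 ∨ ∃ ξ ∈ S, g ∈ f ξ}, ?_⟩, Or.inl (one_mem _)⟩, ?_⟩, fun _ => Iff.rfl⟩
    · rintro a b (ha | ⟨ξ, h1, ha⟩) (hb | ⟨η, h2, hb⟩)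
      · exact Or.inl (mul_mem ha hb)
      · exact Or.inr ⟨η, h2, mul_mem ((hf η h2).1 ha) hb⟩
      · exact Or.inr ⟨ξ, h1, mul_mem ha ((hf ξ h1).1 hb)⟩
      · rcases lt_trichotomy ξ η with l | rfl | l
        · exact Or.inr ⟨η, h2, mul_mem ((hf η h2).2 ξ l ha) hb⟩
        · exact Or.inr ⟨ξ, h1, mul_mem ha hb⟩
        · exact Or.inr ⟨ξ, h1, mul_mem ha ((hf ξ h1).2 η l hb)⟩
    · rintro a (ha | ⟨ξ, h1, ha⟩)
      · exact Or.inl (inv_mem ha)
      · exact Or.inr ⟨ξ, h1, inv_mem ha⟩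
  obtain ⟨f, hf⟩ := MP_155eb7_gt.trans_rec (W := W)
    (S := Subgroup (Y × K ≃ₜ Y × K) × Subalgebra ℤ R)
    (fun ξ f s => (G0 ≤ s.1 ∧ ∀ η < ξ, (f η).1 ≤ s.1) ∧ Inv s.1 s.2 ∧ #s.2 ≤ max #(Iio ξ) ℵ₀ ∧
      ∃ g ∈ s.1, g (y0, 1) = en ξ)
    (fun ξ f g s e ⟨⟨h1, h2⟩, h3⟩ => ⟨⟨h1, fun η l => e η l ▸ h2 η l⟩, h3⟩) (by
      intro ξ f ih
      obtain ⟨G, hG⟩ := un (fun η => (f η).1) (Iio ξ) fun η l => (ih η l).1
      let A := Algebra.adjoin ℤ ((A0 : Set R) ∪ ⋃ η : Iio ξ, (f η).2)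
      have a1 : A0 ≤ A := fun a ha => Algebra.subset_adjoin (Or.inl ha)
      have a2 : ∀ η < ξ, (f η).2 ≤ A := fun η l a ha =>
        Algebra.subset_adjoin (Or.inr (mem_iUnion.2 ⟨⟨η, l⟩, ha⟩))
      have a3 : ∀ g ∈ G, ∃ G1 : Subgroup (Y × K ≃ₜ Y × K), g ∈ G1 ∧ Inv G1 A := by
        intro g hg
        rcases (hG g).1 hg with h1 | ⟨η, l, h1⟩
        · exact ⟨G0, h1, I0.mono a1⟩
        · exact ⟨_, h1, (ih η l).2.1.mono (a2 η l)⟩
      have hI : Inv G A := ⟨fun g hg => let ⟨_, h1, h2⟩ := a3 g hg; h2.mem g h1,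
        fun g hg => let ⟨_, h1, h2⟩ := a3 g hg; h2.out g h1,
        fun g hg => let ⟨_, h1, h2⟩ := a3 g hg; h2.free g h1⟩
      have m0 := le_max_right #(Iio ξ) ℵ₀
      have hA : #A ≤ max #(Iio ξ) ℵ₀ := by
        refine (Algebra.cardinalMk_adjoin_le ℤ _).trans (max_le (max_le (by simp) ?_) m0)
        refine (mk_union_le _ _).trans (add_le_of_le m0 (c1.trans m0) ?_)
        refine (mk_iUnion_le _).trans (mul_le_of_le m0 (le_max_left _ _) (ciSup_le' fun η => ?_))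
        exact (ih η η.2).2.2.1.trans (max_le_max_right _ (mk_le_mk_of_subset (Iio_subset_Iio η.2.le)))
      have g1 : G0 ≤ G ∧ ∀ η < ξ, (f η).1 ≤ G :=
        ⟨fun g hg => (hG g).2 (Or.inl hg), fun η l g hg => (hG g).2 (Or.inr ⟨η, l, hg⟩)⟩
      by_cases hx : ∃ g ∈ G, g (y0, 1) = en ξ
      · exact ⟨(G, A), g1, hI, hA, hx⟩
      · obtain ⟨φ, hφ⟩ := hom y0 (en ξ).1
        obtain ⟨G', A', h1, h2, h3, g, h4, h5, -⟩ := step U hU hU1 hU2 hI
          (hA.trans_lt (max_lt (mk_Iio_toType_ord_lt ξ) aleph0_lt_continuum)) (y0, 1) (en ξ) φ hφ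
          fun g hg e => hx ⟨g, hg, e⟩
        exact ⟨(G', A'), ⟨g1.1.trans h1, fun η l => (g1.2 η l).trans h1⟩, h2,
          h3.trans (max_le hA m0), g, h4, h5⟩)
  obtain ⟨G, hG⟩ := un (fun η => (f η).1) univ fun η _ => (hf η).1
  refine ⟨G, fun x => ?_, fun g hg => ?_, h, (hG h).2 (Or.inl hh), h0⟩
  · obtain ⟨ξ, rfl⟩ := hen x
    obtain ⟨g, h1, h2⟩ := (hf ξ).2.2.2
    exact ⟨g, (hG g).2 (Or.inr ⟨ξ, trivial, h1⟩), h2⟩
  · rcases (hG g).1 hg with h1 | ⟨ξ, -, h1⟩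
    · exact I0.free g h1
    · exact (hf ξ).2.1.free g h1

end

end Pool.Agent.H.MP_3a0f08_gt
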