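import Mathlib
import Pool.Agent.H.MP_3a0f08_gt.Step
import Pool.Agent.H.MP_3a0f08_gt.Homog

set_option autoImplicit false

namespace Pool.Agent.H.MP_3a0f08_gt

open Set Filter Topology MeasureTheory
open scoped PowerSeries.WithPiTopology

lemma grp {X : Type} [TopologicalSpace X] (G : Subgroup (X ≃ₜ X)) (x0 : X)
    (h1 : ∀ x, ∃ g ∈ G, g x0 = x) (h2 : ∀ g ∈ G, ∀ x, g x = x → g = 1) :
    ∃ (H : Type) (_ : Group H) (_ : TopologicalSpace H) (e : H ≃ₜ X) (r : H → (X ≃ₜ X)),
      (∀ g ∈ G, ∃ a, r a = g) ∧ ∀ a b, e (a * b) = r a (e b) := by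
  have b : Function.Bijective fun g : G => g.1 x0 := by
    refine ⟨fun a b h => ?_, fun x => let ⟨g, h3, h4⟩ := h1 x; ⟨⟨g, h3⟩, h4⟩⟩
    have := h2 (b⁻¹ * a : G) (b⁻¹ * a).2 x0 (b.1.symm_apply_eq.2 h)
    exact (inv_mul_eq_one.1 (Subtype.ext this)).symm
  letI t : TopologicalSpace G := .induced (Equiv.ofBijective _ b) inferInstance
  exact ⟨G, inferInstance, t, (Equiv.ofBijective _ b).toHomeomorphOfIsInducing ⟨rfl⟩,
    Subtype.val, fun g hg => ⟨⟨g, hg⟩, rfl⟩, fun _ _ => rfl⟩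

lemma left_cont {X H : Type} [TopologicalSpace X] [Group H] [TopologicalSpace H] (e : H ≃ₜ X)
    (r : H → (X ≃ₜ X)) (h : ∀ a b, e (a * b) = r a (e b)) (a : H) : Continuous fun b => a * b := by
  rw [e.isInducing.continuous_iff]
  exact ((r a).continuous.comp e.continuous).congr fun b => (h a b).symm

theorem nonccc : ∃ (H : Type) (_ : Group H) (_ : TopologicalSpace H), CompactSpace H ∧ T2Space H ∧
    (∀ g : H, Continuous fun x : H => g * x) ∧ ∃ O : (ℕ → Bool) → Set H,
      (∀ c, IsOpen (O c) ∧ (O c).Nonempty) ∧ Pairwise (Function.onFun Disjoint O) := by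
  obtain ⟨G, h1, h2, -⟩ := simply (WW VZ) (WW_clopen VZ vz1) (WW_self VZ vz2) (WW_eq VZ vz3 vz4)
    homZ cardZ (fun _ => iso fun _ => true) (.refl _)
  obtain ⟨H, _, _, e, r, -, h3⟩ := grp G _ h1 h2
  refine ⟨H, _, _, e.symm.compactSpace, e.symm.t2Space, left_cont e r h3,
    fun c => {a | (e a).1 0 = iso c}, fun c => ⟨?_, e.symm (fun _ => iso c, 1), by simp⟩,
    fun c d h => disjoint_left.2 fun a h4 h5 => h (iso_inj (h4.symm.trans h5))⟩
  have : Continuous fun a => (e a).1 0 := by fun_prop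
  exact (iso_open c).preimage this

instance : SecondCountableTopology R :=
  inferInstanceAs (SecondCountableTopology ((Unit →₀ ℕ) → ZMod 2))

instance : SecondCountableTopology (Matrix (Fin 2) (Fin 2) R) :=
  inferInstanceAs (SecondCountableTopology (Fin 2 → Fin 2 → R))

instance : SecondCountableTopology K :=
  Matrix.SpecialLinearGroup.isClosedEmbedding_val.isEmbedding.secondCountableTopology

theorem noinv : ∃ (H : Type) (_ : Group H) (_ : TopologicalSpace H), CompactSpace H ∧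
    TopologicalSpace.MetrizableSpace H ∧ (∀ g : H, Continuous fun x : H => g * x) ∧
    ∃ (a : H) (A B : Set H), IsOpen A ∧ IsOpen B ∧ B.Nonempty ∧ B ⊆ A ∧
      (fun x => a * x) '' A ⊆ A \ B := by
  obtain ⟨G, h1, h2, g, hg, h4⟩ := simply (WW VB) (WW_clopen VB fun _ _ => isClopen_discrete _)
    (WW_self VB fun _ _ => Or.inr rfl) (WW_eq VB vb3 vb4) homB (by simp) (fun _ => true) thom
  obtain ⟨H, _, _, e, r, h5, h3⟩ := grp G _ h1 h2
  obtain ⟨a, rfl⟩ := h5 g hg
  have c : ∀ (i : ℕ) (b : Bool), IsOpen {x : H | (e x).1 i = b} := fun i b => by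
    have : Continuous fun a => (e a).1 i := by fun_prop
    exact (isOpen_discrete {b}).preimage this
  refine ⟨H, _, _, e.symm.compactSpace, e.isEmbedding.metrizableSpace, left_cont e r h3, a,
    {x | (e x).1 0 = false}, {x | (e x).1 0 = false} ∩ {x | (e x).1 1 = true}, c _ _,
    (c _ _).inter (c _ _), ⟨e.symm (cons false fun _ => true, 1), by simp [cons]⟩,
    inter_subset_left, ?_⟩
  rintro _ ⟨x, hx, rfl⟩
  have h6 : (e (a * x)).1 = cons false (e x).1 := by rw [h3, h4, thom_eq hx]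
  have hx : (e x).1 0 = false := hx
  simp [h6, cons, hx]

end Pool.Agent.H.MP_3a0f08_gt
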